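import Pool.Agent.Helper41_PQP.Pwr

/-!
# Squad PQP, row SNE: small powers, non-existence (helper41)
-/

set_option autoImplicit false

open scoped InnerProductSpace Topology ContDiff Manifold
open MeasureTheory Filter Set

noncomputable section

namespace Pool.Agent.PQP.H41

open Pool.Agent.Helper42_Paneitz Pool.Agent.Helper82_Vir Pool.Agent.FLX Pool.Agent.PQP

theorem sm_log {Q : S4 → ℝ} (hQ : Sm Q) (hp : ∀ x, 0 < Q x) : Sm (fun x => Real.log (Q x)) := by
  intro y hy
  have h1 : radialExt (fun x => Real.log (Q x)) =ᶠ[𝓝 y] fun z => Real.log (radialExt Q z) := by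
    filter_upwards [eventually_ne_zero hy] with z hz
    simp only [radialExt_apply _ hz]
  refine ContDiffAt.congr_of_eventuallyEq ((hQ y hy).log ?_) h1
  rw [radialExt_apply _ hy]
  exact (hp _).ne'

theorem dd_eq_mul_dlog {Q : S4 → ℝ} (hQ : Sm Q) (hp : ∀ x, 0 < Q x) (x : S4) (v : E5) :
    dd Q x v = Q x * dd (fun z => Real.log (Q z)) x v := by
  have h := dd_comp (sm_log hQ hp) Real.contDiff_exp x v
  have e : (fun z => Real.exp (Real.log (Q z))) = Q := by
    funext z; exact Real.exp_log (hp z)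
  rw [e, Real.deriv_exp, Real.exp_log (hp x)] at h
  exact h

theorem crit_log {Q : S4 → ℝ} (hQ : Sm Q) (hp : ∀ x, 0 < Q x)
    (hcr : ∀ p, Crit Q p → sphLaplacian Q p ≠ 0) (p : S4)
    (h : Crit (fun z => Real.log (Q z)) p) : sphLaplacian (fun z => Real.log (Q z)) p ≠ 0 := by
  have hq := sm_log hQ hp
  have hc : Crit Q p := fun v => by rw [dd_eq_mul_dlog hQ hp, h v, mul_zero]
  intro h0
  refine hcr p hc ?_
  have hterm : ∀ i : Fin 5, dd (fun z => dd Q z (ee i)) p (ee i) =
      Q p * dd (fun z => dd (fun z => Real.log (Q z)) z (ee i)) p (ee i) := by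
    intro i
    have e : (fun z => dd Q z (ee i)) = fun z => Q z * dd (fun z => Real.log (Q z)) z (ee i) := by
      funext z; exact dd_eq_mul_dlog hQ hp z _
    rw [e, dd_mul hQ (sm_dd hq (ee i)), h (ee i), zero_mul, add_zero]
  rw [sphLaplacian_eq hQ, Finset.sum_congr rfl fun i _ => hterm i, ← Finset.mul_sum,
    ← sphLaplacian_eq hq, h0, mul_zero]

theorem mob_cont (mos : MosStmt) {b : E5} (hb : ‖b‖ < 1) : Continuous fun x : S4 => mob b x := by
  have h0 : ContinuousOn (fun z : E5 × S4 => mob z.1 z.2) {z | ‖z.1‖ < 1} := mos.1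
  have h1 : Continuous (fun x : S4 => ((b, x) : E5 × S4)) := Continuous.prodMk_right b
  have h3 := h0.comp_continuous h1 (fun x => hb)
  exact h3

theorem mob_cont' (mos : MosStmt) (x : S4) :
    ContinuousOn (fun b : E5 => mob b x) {b : E5 | ‖b‖ < 1} := by
  have h0 : ContinuousOn (fun z : E5 × S4 => mob z.1 z.2) {z | ‖z.1‖ < 1} := mos.1
  have h1 : ContinuousOn (fun b : E5 => ((b, x) : E5 × S4)) {b : E5 | ‖b‖ < 1} :=
    (Continuous.prodMk_left x).continuousOn
  have h3 := h0.comp h1 (fun b hb => hb)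
  exact h3

/-- the moment function is continuous on the ball -/
theorem cont_mom (mos : MosStmt) {q : S4 → ℝ} (hq : Sm q) {L : ℝ}
    (hL : ∀ (x : S4) (v : E5), |dd q x v| ≤ L * ‖v‖) (a : E5) :
    ContinuousOn (fun b : E5 => ∫ x, dd q (mob b x) a ∂sig) {b | ‖b‖ < 1} := by
  have hg : Continuous fun z => dd q z a := continuous_of_sm (sm_dd hq a)
  refine MeasureTheory.continuousOn_of_dominated (bound := fun _ => L * ‖a‖) ?_ ?_
    (integrable_const _) ?_
  · intro b hb
    exact (hg.comp (mob_cont mos hb)).aestronglyMeasurable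
  · intro b _
    exact Eventually.of_forall fun x => by rw [Real.norm_eq_abs]; exact hL _ _
  · refine Eventually.of_forall fun x => ?_
    exact hg.comp_continuousOn (mob_cont' mos x)

theorem sne (bal : BalStmt) (sol : SolStmt) (cov : CovStmt) (noc : NocStmt) (cmw : CmwStmt)
    (bdd : BddStmt) (kwb : KwbStmt) (bnx : BnxStmt) (inx : InxStmt) (mos : MosStmt) : SneStmt := by
  intro Q hQ hp hcr hH
  set q : S4 → ℝ := fun x => Real.log (Q x) with hqdef
  have hq : Sm q := sm_log hQ hp
  obtain ⟨L, hL0, hL⟩ := dd_bound hq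
  obtain ⟨θ, η, hθ, hη, hη1, hcore⟩ := core cmw noc bdd kwb bnx cov hq isClosed_univ
    (fun p _ h => crit_log hQ hp hcr p h) hL0 hL one_pos
  -- the moments on the compact ball
  have hball : ∃ m : ℝ, 0 < m ∧ ∀ b : E5, ‖b‖ ≤ 1 - η →
      m ≤ ∑ i : Fin 5, |∫ x, dd q (mob b x) (ee i) ∂sig| := by
    have hc : ContinuousOn (fun b : E5 => ∑ i : Fin 5, |∫ x, dd q (mob b x) (ee i) ∂sig|)
        (Metric.closedBall (0 : E5) (1 - η)) := by
      refine (continuousOn_finsetSum _ fun i _ => ?_)
      refine ((cont_mom mos hq hL (ee i)).abs).mono fun b hb => ?_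
      have : ‖b‖ ≤ 1 - η := by simpa using hb
      change ‖b‖ < 1
      linarith
    obtain ⟨b₀, hb₀, hmin⟩ := (isCompact_closedBall (0 : E5) (1 - η)).exists_isMinOn
      ⟨0, by simp; linarith⟩ hc
    refine ⟨_, ?_, fun b hb => hmin (show b ∈ Metric.closedBall (0 : E5) (1 - η) by simpa using hb)⟩
    have hb₀' : ‖b₀‖ < 1 := by
      have : ‖b₀‖ ≤ 1 - η := by simpa using hb₀
      linarith
    have h0 : 0 ≤ ∑ i : Fin 5, |∫ x, dd q (mob b₀ x) (ee i) ∂sig| :=
      Finset.sum_nonneg fun i _ => abs_nonneg _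
    refine lt_of_le_of_ne h0 fun he => hH b₀ hb₀' (inx Q b₀ hQ hp hb₀' fun a => ?_)
    have hz : ∀ i : Fin 5, ∫ x, dd q (mob b₀ x) (ee i) ∂sig = 0 := by
      intro i
      have := (Finset.sum_eq_zero_iff_of_nonneg (fun i (_ : i ∈ Finset.univ) => abs_nonneg
        (∫ x, dd q (mob b₀ x) (ee i) ∂sig))).1 he.symm i (Finset.mem_univ i)
      exact abs_eq_zero.1 this
    have hcm : Continuous fun x : S4 => mob b₀ x := mob_cont mos hb₀'
    have hi : ∀ i : Fin 5, Integrable (fun x => a i * dd q (mob b₀ x) (ee i)) sig := fun i =>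
      (integrable_cont ((continuous_of_sm (sm_dd hq (ee i))).comp hcm)).const_mul _
    have e : (fun x => dlog Q (mob b₀ x) a) = fun x => ∑ i : Fin 5, a i * dd q (mob b₀ x) (ee i) := by
      funext x
      exact dd_eq_sum q (mob b₀ x) a
    rw [e, integral_finsetSum _ fun i _ => hi i]
    refine Finset.sum_eq_zero fun i _ => ?_
    rw [integral_const_mul, hz i, mul_zero]
  obtain ⟨m, hm, hmb⟩ := hball
  obtain ⟨θ₂, hθ₂, hcmw⟩ := cmw (m / (10 * (msig * L))) (by have := msig_pos; positivity)
  refine ⟨min 1 (min θ θ₂ / L), lt_min one_pos (div_pos (lt_min hθ hθ₂) hL0), ?_⟩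
  intro t ht htau hcurv
  have ht1 : |t| ≤ 1 := htau.trans (min_le_left _ _)
  have htL : |t| * L ≤ min θ θ₂ := (le_div_iff₀ hL0).1 (htau.trans (min_le_right _ _))
  have hW : (fun x => Q x ^ t) = ex q t := by
    funext x
    rw [Real.rpow_def_of_pos (hp x), mul_comm]
    rfl
  rw [hW] at hcurv
  obtain ⟨F, hF⟩ := (sol (ex q t) (ex_pos q t)).1 hcurv
  obtain ⟨b, hb, hbal⟩ := bal F hF.1
  have hsq : sq b * (|t| * L) ≤ min θ θ₂ := by
    have h1 : sq b ≤ 1 := by
      unfold FLX.sq
      exact Real.sqrt_le_one.2 (by nlinarith [norm_nonneg b])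
    have h2 : 0 ≤ |t| * L := by positivity
    calc sq b * (|t| * L) ≤ 1 * (|t| * L) := by gcongr
      _ ≤ min θ θ₂ := by rw [one_mul]; exact htL
  rcases le_or_gt ‖b‖ (1 - η) with hcase | hcase
  · -- inside
    have hS : Sol (fun x => ex q t (mob b x)) (pull b F) := (cov b hb).2.1 _ _ hF
    have h2 := hcmw (ex q t) (|t| * L) F b (lg_ex hq hL t) hF hb hbal (hsq.trans (min_le_right _ _))
    set f := pull b F with hfdef
    have hD : Dens f := hS.1
    have hcm : Continuous fun x : S4 => mob b x := mob_cont mos hb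
    have hi : ∀ i : Fin 5, |∫ x, dd q (mob b x) (ee i) ∂sig| ≤ m / 10 := by
      intro i
      have hg : Continuous fun x => dd q (mob b x) (ee i) :=
        (continuous_of_sm (sm_dd hq (ee i))).comp hcm
      have h5 := kwb (ex q t) f b (ex_sm hq t) (ex_pos q t) hb hS (ee i)
      have e : (fun x => dlog (ex q t) (mob b x) (ee i) * f x) =
          fun x => t * (dd q (mob b x) (ee i) * f x) := by
        funext x; rw [dlog_ex hq]; ring
      rw [e, integral_const_mul] at h5
      have h6 : ∫ x, dd q (mob b x) (ee i) * f x ∂sig = 0 := (mul_eq_zero.1 h5).resolve_left ht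
      have h7 : ∫ x, dd q (mob b x) (ee i) ∂sig =
          msig * ∫ x, dd q (mob b x) (ee i) * (1 / msig - f x) ∂sig := by
        have e2 : (fun x => dd q (mob b x) (ee i) * (1 / msig - f x)) =
            fun x => (1 / msig) * dd q (mob b x) (ee i) - dd q (mob b x) (ee i) * f x := by
          funext x; ring
        rw [e2, integral_sub ((integrable_cont hg).const_mul _) (integrable_cont (hg.fun_mul hD.1)),
          h6, integral_const_mul, sub_zero, ← mul_assoc, mul_one_div_cancel msig_ne, one_mul]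
      have h8 : |∫ x, dd q (mob b x) (ee i) * (1 / msig - f x) ∂sig| ≤
          L * ∫ x, |f x - 1 / msig| ∂sig := by
        have hc : Continuous fun x => |f x - 1 / msig| := (hD.1.sub continuous_const).abs
        calc |∫ x, dd q (mob b x) (ee i) * (1 / msig - f x) ∂sig|
            ≤ ∫ x, |dd q (mob b x) (ee i) * (1 / msig - f x)| ∂sig := abs_integral_le_integral_abs
          _ ≤ ∫ x, L * |f x - 1 / msig| ∂sig := by
              refine integral_mono (integrable_cont (hg.mul (continuous_const.sub hD.1)).abs)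
                ((integrable_cont hc).const_mul _) fun x => ?_
              change |dd q (mob b x) (ee i) * (1 / msig - f x)| ≤ L * |f x - 1 / msig|
              rw [abs_mul, abs_sub_comm (1 / msig)]
              refine mul_le_mul_of_nonneg_right ?_ (abs_nonneg _)
              have := hL (mob b x) (ee i)
              rwa [norm_ee, mul_one] at this
          _ = L * ∫ x, |f x - 1 / msig| ∂sig := integral_const_mul _ _
      rw [h7, abs_mul, abs_of_pos msig_pos]
      have hmp := msig_pos
      calc msig * |∫ x, dd q (mob b x) (ee i) * (1 / msig - f x) ∂sig|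
          ≤ msig * (L * (m / (10 * (msig * L)))) := by
            refine mul_le_mul_of_nonneg_left (h8.trans ?_) hmp.le
            exact mul_le_mul_of_nonneg_left h2 hL0.le
        _ = m / 10 := by field_simp
    have h9 := hmb b hcase
    have h10 : ∑ i : Fin 5, |∫ x, dd q (mob b x) (ee i) ∂sig| ≤ ∑ _i : Fin 5, m / 10 :=
      Finset.sum_le_sum fun i _ => hi i
    rw [Finset.sum_const, Finset.card_univ, Fintype.card_fin] at h10
    have h11 : (5 : ℕ) • (m / 10) = m / 2 := by rw [nsmul_eq_mul]; push_cast; ring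
    rw [h11] at h10
    linarith
  · -- near the boundary
    have hb0 : 0 < ‖b‖ := by linarith
    let w : S4 := ⟨‖b‖⁻¹ • b, by
      rw [mem_sphere_zero_iff_norm, norm_smul, norm_inv, norm_norm, inv_mul_cancel₀ hb0.ne']⟩
    have hw : b = ‖b‖ • (w : E5) := by
      change b = ‖b‖ • (‖b‖⁻¹ • b)
      rw [smul_smul, mul_inv_cancel₀ hb0.ne', one_smul]
    refine hcore t ‖b‖ w F ht ht1 (mem_univ w) hcase.le hb hF ?_ ?_
    · rw [← hw]; exact hbal
    · rw [← hw]; exact hsq.trans (min_le_left _ _)

end Pool.Agent.PQP.H41
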