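import Pool.Agent.Helper41_PQP.Pwr

/-!
# Squad PQP, row APR: a priori bounds (helper41)
-/

set_option autoImplicit false

open scoped InnerProductSpace Topology ContDiff Manifold
open MeasureTheory Filter Set

noncomputable section

namespace Pool.Agent.PQP.H41

open Pool.Agent.Helper42_Paneitz Pool.Agent.Helper82_Vir Pool.Agent.FLX Pool.Agent.PQP

/-- `sq b` is small near the boundary -/
theorem sq_small {G θ : ℝ} (hG : 0 < G) (hθ : 0 < θ) : ∃ ρ : ℝ, ρ < 1 ∧ ∀ (lam : ℝ) (w : S4),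
    0 ≤ lam → lam < 1 → ρ < lam → sq (lam • (w : E5)) * G ≤ θ := by
  refine ⟨1 - (θ / G) ^ 2 / 2, by have : 0 < (θ / G) ^ 2 := by positivity
                                  linarith, fun lam w h0 h1 h => ?_⟩
  rw [← le_div_iff₀ hG]
  unfold FLX.sq
  rw [norm_lw w h0]
  apply Real.sqrt_le_iff.2
  exact ⟨by positivity, by nlinarith⟩

theorem apr (bnx : BnxStmt) (cmw : CmwStmt) (noc : NocStmt) (nob : NobStmt) (bdd : BddStmt)
    (kwb : KwbStmt) (lipb : LipbStmt) (cov : CovStmt) : AprStmt := by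
  intro ψ K hψ hK hcr T hT
  obtain ⟨L, hL0, hL⟩ := dd_bound hψ
  obtain ⟨M, hM0, hM⟩ := exists_bound (continuous_of_sm hψ)
  obtain ⟨θ, η, hθ, hη, hη1, hcore⟩ := core cmw noc bdd kwb bnx cov hψ hK hcr hL0 hL hT
  obtain ⟨ρ₀, hρ₀, hsm⟩ := sq_small (mul_pos hT hL0) hθ
  set ρ := max (max (1 - η) ρ₀) 0 with hρdef
  have hρ0 : 0 ≤ ρ := le_max_right _ _
  have hρ1 : ρ < 1 := max_lt (max_lt (by linarith) hρ₀) one_pos
  obtain ⟨u, hu, hnob⟩ := nob (2 * (T * L) / (1 - ρ)) (1 / 8)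
    (div_pos (by positivity) (by linarith)) (by norm_num)
  obtain ⟨C, hC, hbdd⟩ := bdd u (Real.exp (2 * T * M)) hu (Real.exp_pos _)
  refine ⟨ρ, |Real.log msig| + |Real.log C|, hρ1, ?_⟩
  intro t lam w f ht htT hw hlam0 hlam1 hf hbal
  have htT' : |t| ≤ T := by rwa [abs_of_pos ht]
  have hb : ‖lam • (w : E5)‖ < 1 := by rw [norm_lw w hlam0]; exact hlam1
  have hlam : lam ≤ ρ := by
    by_contra hc
    push Not at hc
    have hc1 : 1 - η ≤ lam := ((le_max_left _ _).trans (le_max_left _ _)).trans hc.le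
    have hc2 : ρ₀ < lam := ((le_max_right _ _).trans (le_max_left _ _)).trans_lt hc
    set b : E5 := lam • (w : E5) with hbdef
    have hF : Sol (ex ψ t) (pull (-b) f) := by
      have h := (cov (-b) (neg_lt hb)).2.1 _ _ hf
      have e : (fun x => Real.exp (t * ψ (mob b (mob (-b) x)))) = ex ψ t := by
        funext x; rw [mob_neg hb]; rfl
      rwa [e] at h
    refine hcore t lam w (pull (-b) f) ht.ne' htT' hw hc1 hlam1 hF ?_ ?_
    · rw [pull_pull hb]; exact hbal
    · refine le_trans ?_ (hsm lam w hlam0 hlam1 hc2)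
      have : 0 ≤ sq (lam • (w : E5)) := Real.sqrt_nonneg _
      gcongr
  refine ⟨hlam, ?_⟩
  have hG : LG (fun x => Real.exp (t * ψ (mob (lam • (w : E5)) x))) (2 * (T * L) / (1 - ρ)) := by
    have hLG : LG (ex ψ t) (T * L) := lg_mono (lg_ex hψ hL t) (by gcongr)
    obtain ⟨-, h⟩ := lipb (ex ψ t) (T * L) hLG
    obtain ⟨h1, h2, h3⟩ := h (lam • (w : E5)) hb
    refine ⟨h1, h2, fun x v => (h3 x v).trans ?_⟩
    have hx : 1 - ρ ≤ 1 + ⟪lam • (w : E5), (x : E5)⟫_ℝ := by
      rw [inner_smul_left]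
      have h4 := neg_one_le_inner w x
      simp only [conj_trivial]
      nlinarith
    have hsq : sq (lam • (w : E5)) ≤ 1 := by
      unfold FLX.sq
      rw [norm_lw w hlam0]
      exact Real.sqrt_le_one.2 (by nlinarith)
    have h5 : 0 ≤ sq (lam • (w : E5)) := Real.sqrt_nonneg _
    have h6 : 0 < 1 - ρ := by linarith
    refine mul_le_mul_of_nonneg_right ?_ (norm_nonneg v)
    calc 2 * (T * L) * sq (lam • (w : E5)) / (1 + ⟪lam • (w : E5), (x : E5)⟫_ℝ)
        ≤ 2 * (T * L) * 1 / (1 - ρ) := by gcongr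
      _ = 2 * (T * L) / (1 - ρ) := by rw [mul_one]
  have hmas := hnob _ f hG hf hbal
  have hbd := hbdd _ f hf hmas (fun x => Real.exp_pos _) (fun x y => ex_le hM0 hM htT' _ _)
  intro x
  have hfx : 0 < f x := hf.1.2.1 x
  rw [Real.log_mul msig_ne hfx.ne']
  refine (abs_add_le _ _).trans (add_le_add le_rfl ?_)
  obtain ⟨h1, h2⟩ := hbd x
  have h3 : Real.log (f x) ≤ Real.log C := Real.log_le_log hfx h2
  have h4 : - Real.log C ≤ Real.log (f x) := by
    rw [← Real.log_inv]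
    refine Real.log_le_log (by positivity) ?_
    rwa [one_div] at h1
  exact abs_le.2 ⟨by linarith [le_abs_self (Real.log C)], by linarith [le_abs_self (Real.log C)]⟩

end Pool.Agent.PQP.H41
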