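import Pool.Agent.PQP.StmtsC

/-!
# Squad PQP, row CMP: balanced solutions are nearly uniform away from `-w` (helper41)
-/

set_option autoImplicit false

open scoped InnerProductSpace Topology ContDiff Manifold
open MeasureTheory Filter Set

noncomputable section

namespace Pool.Agent.PQP.H41

open Pool.Agent.Helper42_Paneitz Pool.Agent.Helper82_Vir Pool.Agent.FLX Pool.Agent.PQP

/-- `|a - c| ≤ ρ c` from `|log a - log c| ≤ min 1 (ρ/2)` -/
theorem abs_sub_of_log {a c ρ s : ℝ} (ha : 0 < a) (hc : 0 < c) (hs1 : s ≤ 1) (hs2 : s ≤ ρ / 2)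
    (h : |Real.log a - Real.log c| ≤ s) : |a - c| ≤ ρ * c := by
  have e : a - c = c * (Real.exp (Real.log a - Real.log c) - 1) := by
    rw [Real.exp_sub, Real.exp_log ha, Real.exp_log hc]
    field_simp
  have h1 := Real.abs_exp_sub_one_le (h.trans hs1)
  rw [e, abs_mul, abs_of_pos hc, mul_comm ρ c]
  refine mul_le_mul_of_nonneg_left (h1.trans ?_) hc.le
  linarith

theorem cmp (cpt : CptStmt) (osc : OscStmt) (noc : NocStmt) (cov : CovStmt) : CmpStmt := by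
  intro η hη
  have hn : ∀ n : ℕ, ∃ p : ℝ × ℝ, 0 < p.1 ∧ 0 < p.2 ∧ ∀ (W f : S4 → ℝ) (G : ℝ) (b : E5),
      LG W G → Sol W f → ‖b‖ < 1 → Bal (pull b f) → sq b * G ≤ p.2 →
        ∀ z : S4, mas (pull b f) z p.1 ≤ 1 / ((n : ℝ) + 1) := by
    intro n
    obtain ⟨u, θ, h1, h2, h3, h4⟩ := noc (1 / ((n : ℝ) + 1)) (by positivity)
    exact ⟨(u, θ), h1, h3, h4⟩
  choose p hp1 hp2 hp3 using hn
  obtain ⟨ρ, hρ, hC⟩ := cpt (fun ε => (p ⌈1 / ε⌉₊).1) (fun ε _ => hp1 _) η hη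
  obtain ⟨m, -, hm⟩ := (Finset.range (⌈1 / ρ⌉₊ + 1)).exists_min_image (fun n => (p n).2)
    ⟨0, by simp⟩
  have hδ : 0 < min 1 (ρ / 2) := lt_min one_pos (by linarith)
  have hsρ : 0 < √ρ := Real.sqrt_pos.2 hρ
  refine ⟨min (p m).2 (min 1 (ρ / 2) * √ρ / 6), lt_min (hp2 _) (by positivity), ?_⟩
  intro W G f b w hW hf hb hbw hbal hG x hx
  have hG1 := hG.trans (min_le_left _ _)
  have hG2 := hG.trans (min_le_right _ _)
  refine hC w (fun x => W (mob b x)) (pull b f) (W w) ((cov b hb).2.1 W f hf) hbal (hW.2.1 w)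
    ?_ ?_ x hx
  · intro ε hε z
    have hε0 : 0 < ε := hρ.trans_le hε
    have hle : ⌈1 / ε⌉₊ ≤ ⌈1 / ρ⌉₊ := Nat.ceil_mono (one_div_le_one_div_of_le hρ hε)
    have h0 := hp3 ⌈1 / ε⌉₊ W f G b hW hf hb hbal
      (hG1.trans (hm _ (Finset.mem_range.2 (by omega)))) z
    refine h0.trans ?_
    have h1 : 1 / ε ≤ (⌈1 / ε⌉₊ : ℝ) := Nat.le_ceil _
    have h2 : 0 < 1 / ε := by positivity
    rw [div_le_iff₀ (by positivity)]
    have h3 : 1 = (1 / ε) * ε := by field_simp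
    nlinarith
  · intro y hy
    have hs : 0 < 1 + ⟪(w : E5), (y : E5)⟫_ℝ := by linarith
    have h0 := osc W G b w hW hb hbw y (by linarith)
    refine abs_sub_of_log (hW.2.1 _) (hW.2.1 w) (min_le_left 1 (ρ / 2)) (min_le_right 1 (ρ / 2))
      (h0.trans ?_)
    have h1 : √ρ ≤ √(1 + ⟪(w : E5), (y : E5)⟫_ℝ) := Real.sqrt_le_sqrt (by linarith)
    rw [div_le_iff₀ (hsρ.trans_le h1)]
    calc 6 * G * sq b = 6 * (sq b * G) := by ring
      _ ≤ 6 * (min 1 (ρ / 2) * √ρ / 6) := by gcongr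
      _ = min 1 (ρ / 2) * √ρ := by ring
      _ ≤ min 1 (ρ / 2) * √(1 + ⟪(w : E5), (y : E5)⟫_ℝ) := by gcongr

end Pool.Agent.PQP.H41
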