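import Pool.Agent.PQP.StmtsX
import Pool.Agent.Helper18_FLX.Moa

/-!
# Squad PQP: the powers `exp (t ψ)`, preparations for the rows APR and SNE (helper41)
-/

set_option autoImplicit false

open scoped InnerProductSpace Topology ContDiff Manifold
open MeasureTheory Filter Set

noncomputable section

namespace Pool.Agent.PQP.H41

open Pool.Agent.Helper42_Paneitz Pool.Agent.Helper82_Vir Pool.Agent.FLX Pool.Agent.PQP

theorem abs_coord_le (v : E5) (i : Fin 5) : |v i| ≤ ‖v‖ := by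
  have h := abs_real_inner_le_norm v (ee i)
  rwa [inner_ee, norm_ee, mul_one] at h

theorem dd_bound {ψ : S4 → ℝ} (hψ : Sm ψ) : ∃ L : ℝ, 0 < L ∧ ∀ (x : S4) (v : E5),
    |dd ψ x v| ≤ L * ‖v‖ := by
  have h : ∀ i : Fin 5, ∃ C : ℝ, 0 ≤ C ∧ ∀ x, |dd ψ x (ee i)| ≤ C := fun i =>
    exists_bound (continuous_of_sm (sm_dd hψ (ee i)))
  choose C hC0 hC using h
  refine ⟨(∑ i, C i) + 1, by have := Finset.sum_nonneg (fun i (_ : i ∈ Finset.univ) => hC0 i); linarith,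
    fun x v => ?_⟩
  rw [dd_eq_sum]
  calc |∑ i : Fin 5, v i * dd ψ x (ee i)| ≤ ∑ i : Fin 5, |v i * dd ψ x (ee i)| :=
        Finset.abs_sum_le_sum_abs _ _
    _ ≤ ∑ i : Fin 5, ‖v‖ * C i := by
        refine Finset.sum_le_sum fun i _ => ?_
        rw [abs_mul]
        exact mul_le_mul (abs_coord_le v i) (hC i x) (abs_nonneg _) (norm_nonneg _)
    _ = (∑ i, C i) * ‖v‖ := by rw [← Finset.mul_sum, mul_comm]
    _ ≤ ((∑ i, C i) + 1) * ‖v‖ := by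
        have := norm_nonneg v
        nlinarith

/-- the power `exp (t ψ)` -/
def ex (ψ : S4 → ℝ) (t : ℝ) (x : S4) : ℝ := Real.exp (t * ψ x)

theorem ex_pos (ψ : S4 → ℝ) (t : ℝ) (x : S4) : 0 < ex ψ t x := Real.exp_pos _

theorem ex_sm {ψ : S4 → ℝ} (hψ : Sm ψ) (t : ℝ) : Sm (ex ψ t) :=
  sm_comp hψ (φ := fun s => Real.exp (t * s)) (Real.contDiff_exp.comp (contDiff_const.mul contDiff_id))

theorem log_ex (ψ : S4 → ℝ) (t : ℝ) : (fun z => Real.log (ex ψ t z)) = fun z => t * ψ z := by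
  funext z
  unfold ex
  rw [Real.log_exp]

theorem dlog_ex {ψ : S4 → ℝ} (hψ : Sm ψ) (t : ℝ) (x : S4) (v : E5) :
    dlog (ex ψ t) x v = t * dd ψ x v := by
  unfold dlog
  rw [log_ex, dd_fun_smul t hψ]

theorem lg_ex {ψ : S4 → ℝ} (hψ : Sm ψ) {L : ℝ} (hL : ∀ (x : S4) (v : E5), |dd ψ x v| ≤ L * ‖v‖)
    (t : ℝ) : LG (ex ψ t) (|t| * L) := by
  refine ⟨ex_sm hψ t, ex_pos ψ t, fun x v => ?_⟩
  rw [log_ex, dd_fun_smul t hψ, abs_mul, mul_assoc]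
  exact mul_le_mul_of_nonneg_left (hL x v) (abs_nonneg t)

theorem lg_mono {W : S4 → ℝ} {G G' : ℝ} (h : LG W G) (hG : G ≤ G') : LG W G' :=
  ⟨h.1, h.2.1, fun x v => (h.2.2 x v).trans (mul_le_mul_of_nonneg_right hG (norm_nonneg v))⟩

theorem ex_le {ψ : S4 → ℝ} {M T t : ℝ} (hM0 : 0 ≤ M) (hM : ∀ x, |ψ x| ≤ M) (ht : |t| ≤ T) (x y : S4) :
    ex ψ t x ≤ Real.exp (2 * T * M) * ex ψ t y := by
  unfold ex
  rw [← Real.exp_add]
  apply Real.exp_le_exp.2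
  have h1 : |t * ψ x| ≤ T * M := by
    rw [abs_mul]; exact mul_le_mul ht (hM x) (abs_nonneg _) ((abs_nonneg _).trans ht)
  have h2 : |t * ψ y| ≤ T * M := by
    rw [abs_mul]; exact mul_le_mul ht (hM y) (abs_nonneg _) ((abs_nonneg _).trans ht)
  have h3 := (abs_le.1 h1).2
  have h4 := (abs_le.1 h2).1
  linarith

/-! ### Moebius maps -/

theorem neg_lt {b : E5} (hb : ‖b‖ < 1) : ‖-b‖ < 1 := by rwa [norm_neg]

theorem mob_neg {b : E5} (hb : ‖b‖ < 1) (x : S4) : mob b (mob (-b) x) = x := by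
  have h := Pool.Agent.FLX.H18.mob_mob (neg_lt hb) x
  rwa [neg_neg] at h

theorem jac_mul {b : E5} (hb : ‖b‖ < 1) (x : S4) : Jac (-b) (mob b x) * Jac b x = 1 := by
  obtain ⟨hp, -, -, -, h5, -⟩ := Pool.Agent.FLX.H18.moa b hb
  have h := h5 x
  have hu : 0 < 1 + ⟪b, (x : E5)⟫_ℝ := hp x
  have hk : 0 < 1 - ‖b‖ ^ 2 := by
    have := norm_nonneg b
    nlinarith
  have hv : 0 < 1 - ⟪b, (mob b x : E5)⟫_ℝ := by
    by_contra hc
    have : (1 - ⟪b, (mob b x : E5)⟫_ℝ) * (1 + ⟪b, (x : E5)⟫_ℝ) ≤ 0 :=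
      mul_nonpos_of_nonpos_of_nonneg (by linarith) hu.le
    linarith
  unfold Jac
  rw [norm_neg, inner_neg_left, ← sub_eq_add_neg]
  have e : (1 - ⟪b, (mob b x : E5)⟫_ℝ) ^ 4 * (1 + ⟪b, (x : E5)⟫_ℝ) ^ 4 = (1 - ‖b‖ ^ 2) ^ 4 := by
    rw [← mul_pow, h]
  rw [div_mul_div_comm, e, ← pow_add]
  exact div_self (pow_pos hk _).ne'

theorem pull_pull {b : E5} (hb : ‖b‖ < 1) (f : S4 → ℝ) : pull b (pull (-b) f) = f := by
  funext x
  unfold pull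
  rw [Pool.Agent.FLX.H18.mob_mob hb x, mul_assoc, jac_mul hb x, mul_one]

/-! ### near the boundary of the ball -/

/-- the norm of `lam • w` -/
theorem norm_lw (w : S4) {lam : ℝ} (h : 0 ≤ lam) : ‖lam • (w : E5)‖ = lam := by
  rw [norm_smul, S4_norm, mul_one, Real.norm_of_nonneg h]

theorem core (cmw : CmwStmt) (noc : NocStmt) (bdd : BddStmt) (kwb : KwbStmt) (bnx : BnxStmt)
    (cov : CovStmt) {ψ : S4 → ℝ} {K : Set S4} (hψ : Sm ψ) (hK : IsClosed K)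
    (hcr : ∀ p ∈ K, Crit ψ p → sphLaplacian ψ p ≠ 0) {L : ℝ} (hL0 : 0 < L)
    (hL : ∀ (x : S4) (v : E5), |dd ψ x v| ≤ L * ‖v‖) {T : ℝ} (hT : 0 < T) :
    ∃ θ η : ℝ, 0 < θ ∧ 0 < η ∧ η < 1 ∧ ∀ (t lam : ℝ) (w : S4) (F : S4 → ℝ), t ≠ 0 → |t| ≤ T →
      w ∈ K → 1 - η ≤ lam → lam < 1 → Sol (ex ψ t) F → Bal (pull (lam • (w : E5)) F) →
        ¬ sq (lam • (w : E5)) * (|t| * L) ≤ θ := by
  obtain ⟨M, hM0, hM⟩ := exists_bound (continuous_of_sm hψ)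
  obtain ⟨u, θ₁, hu, -, hθ₁, hnoc⟩ := noc (1 / 8) (by norm_num)
  obtain ⟨C, hC, hbdd⟩ := bdd u (Real.exp (2 * T * M)) hu (Real.exp_pos _)
  obtain ⟨η, hη, hη1, hbnx⟩ := bnx ψ K hψ hK hcr (C ^ 4 * msig) (mul_pos (pow_pos hC 4) msig_pos)
  obtain ⟨θ₂, hθ₂, hcmw⟩ := cmw η hη
  refine ⟨min θ₁ θ₂, η, lt_min hθ₁ hθ₂, hη, hη1, ?_⟩
  intro t lam w F ht htT hw hlam hlam1 hF hbal hsm
  have hlam0 : 0 < lam := by linarith
  have hb : ‖lam • (w : E5)‖ < 1 := by rw [norm_lw w hlam0.le]; exact hlam1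
  set b : E5 := lam • (w : E5) with hbdef
  have hLG := lg_ex hψ hL t
  have hS : Sol (fun x => ex ψ t (mob b x)) (pull b F) := (cov b hb).2.1 _ _ hF
  have h1 := hnoc (ex ψ t) F (|t| * L) b hLG hF hb hbal (hsm.trans (min_le_left _ _))
  have h2 := hcmw (ex ψ t) (|t| * L) F b hLG hF hb hbal (hsm.trans (min_le_right _ _))
  have h3 := hbdd (fun x => ex ψ t (mob b x)) (pull b F) hS h1 (fun x => ex_pos ψ t _)
    (fun x y => ex_le hM0 hM htT _ _)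
  have hD : Dens (pull b F) := hS.1
  have h4 : ∫ x, pull b F x ^ 4 ∂sig ≤ C ^ 4 * msig := by
    calc ∫ x, pull b F x ^ 4 ∂sig ≤ ∫ _, C ^ 4 ∂sig := by
          refine integral_mono (integrable_cont (hD.1.pow 4)) (integrable_const _) fun x => ?_
          exact pow_le_pow_left₀ (hD.2.1 x).le (h3 x).2 4
      _ = C ^ 4 * msig := by rw [integral_const_sig, mul_comm]
  refine hbnx w lam (pull b F) hw hlam hlam1 hD h2 h4 fun a => ?_
  have h5 := kwb (ex ψ t) (pull b F) b (ex_sm hψ t) (ex_pos ψ t) hb hS a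
  have e : (fun x => dlog (ex ψ t) (mob b x) a * pull b F x) =
      fun x => t * (dd ψ (mob b x) a * pull b F x) := by
    funext x; rw [dlog_ex hψ]; ring
  rw [e, integral_const_mul] at h5
  exact (mul_eq_zero.1 h5).resolve_left ht

end Pool.Agent.PQP.H41
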