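import Pool.Agent.PQP.StmtsE
import Pool.Agent.Helper82_FLX.Pow
import Pool.Agent.Helper83_FLX.Ker

/-!
# Squad PQP, row SBL: calculus of the norm `SB` (helper41)
-/

set_option autoImplicit false

open scoped InnerProductSpace Topology ContDiff Manifold
open MeasureTheory Filter Set

noncomputable section

namespace Pool.Agent.PQP.H41

open Pool.Agent.Helper42_Paneitz Pool.Agent.Helper82_Vir Pool.Agent.FLX Pool.Agent.PQP

theorem kerS : KerStmt := Pool.Agent.FLX.H83.ker (Pool.Agent.FLX.H82.pow Pool.Agent.FLX.H82.vol)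

theorem sb_int (x : S4) {f : S4 → ℝ} (hf : Continuous f) :
    Integrable (fun y => (1 + |ell x y|) * |f y|) sig := by
  obtain ⟨hK1, -, -⟩ := kerS
  obtain ⟨C, hC0, hC⟩ := exists_bound hf
  have h1 : Integrable (fun y => 1 + |ell x y|) sig := (integrable_const 1).add (hK1 x).abs
  refine h1.mul_bdd (c := C) (hf.abs.aestronglyMeasurable) (Eventually.of_forall fun y => ?_)
  rw [Real.norm_eq_abs, abs_abs]; exact hC y

theorem sbl : SblStmt := by
  obtain ⟨hK1, -, C, hC0, hC, -⟩ := kerS
  refine ⟨⟨msig + C, by linarith [msig_pos], fun f B hf hB x => ?_⟩, fun f g B B' hf hg h1 h2 x => ?_,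
    fun f g B hf hg h1 h2 x => ?_, fun f B c h1 x => ?_⟩
  · have hB0 : 0 ≤ B := (abs_nonneg _).trans (hB x)
    have i1 : Integrable (fun y => 1 + |ell x y|) sig := (integrable_const 1).add (hK1 x).abs
    calc ∫ y, (1 + |ell x y|) * |f y| ∂sig ≤ ∫ y, (1 + |ell x y|) * B ∂sig := by
          refine integral_mono (sb_int x hf) (i1.mul_const B) fun y => ?_
          exact mul_le_mul_of_nonneg_left (hB y) (by positivity)
      _ = (msig + ∫ y, |ell x y| ∂sig) * B := by
          rw [integral_mul_const, integral_add (integrable_const 1) (hK1 x).abs, integral_const_sig,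
            mul_one]
      _ ≤ (msig + C) * B := by
          have := hC x
          gcongr
  · have := h1 x
    have := h2 x
    calc ∫ y, (1 + |ell x y|) * |f y + g y| ∂sig
        ≤ ∫ y, ((1 + |ell x y|) * |f y| + (1 + |ell x y|) * |g y|) ∂sig := by
          refine integral_mono (sb_int x (hf.add hg)) ((sb_int x hf).add (sb_int x hg)) fun y => ?_
          change (1 + |ell x y|) * |f y + g y| ≤ (1 + |ell x y|) * |f y| + (1 + |ell x y|) * |g y|
          rw [← mul_add]
          exact mul_le_mul_of_nonneg_left (abs_add_le _ _) (by positivity)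
      _ = (∫ y, (1 + |ell x y|) * |f y| ∂sig) + ∫ y, (1 + |ell x y|) * |g y| ∂sig :=
          integral_add (sb_int x hf) (sb_int x hg)
      _ ≤ B + B' := by linarith
  · refine le_trans (integral_mono (sb_int x hf) (sb_int x hg) fun y => ?_) (h2 x)
    exact mul_le_mul_of_nonneg_left (h1 y) (by positivity)
  · have e : (fun y => (1 + |ell x y|) * |c * f y|) = fun y => |c| * ((1 + |ell x y|) * |f y|) := by
      funext y; rw [abs_mul]; ring
    calc ∫ y, (1 + |ell x y|) * |c * f y| ∂sig = |c| * ∫ y, (1 + |ell x y|) * |f y| ∂sig := by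
          rw [e, integral_const_mul]
      _ ≤ |c| * B := by
          have := h1 x
          gcongr

end Pool.Agent.PQP.H41
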